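import Mathlib

set_option autoImplicit false

namespace Pool.Agent.Results.MP_c087c9_gt.SemiSpan

open Set

/-- The surjective span: supremum over all connected `C ⊆ X × X` both of whose projections are all
of `X` of the infimum of `d(x,y)` over `(x,y) ∈ C`. -/
noncomputable def surjSpan (X : Type) [MetricSpace X] : ENNReal :=
  ⨆ (C : Set (X × X)) (_ : IsConnected C)
    (_ : Prod.fst '' C = univ ∧ Prod.snd '' C = univ), ⨅ p ∈ C, edist p.1 p.2

/-- The surjective semi-span: the same, with only one projection required to be all of `X`. -/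
noncomputable def surjSemiSpan (X : Type) [MetricSpace X] : ENNReal :=
  ⨆ (C : Set (X × X)) (_ : IsConnected C)
    (_ : Prod.fst '' C = univ ∨ Prod.snd '' C = univ), ⨅ p ∈ C, edist p.1 p.2

/-- A space with a continuous injection to the line attaining its minimum has surjective span
zero. -/
lemma surjSpan_eq_zero {X : Type} [MetricSpace X] (g : X → ℝ) (hg : Continuous g)
    (hinj : Function.Injective g) (x0 : X) (hx0 : ∀ x, g x0 ≤ g x) : surjSpan X = 0 := by
  refine le_antisymm ?_ zero_le
  refine iSup_le fun C => iSup_le fun hC => iSup_le fun hpr => ?_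
  obtain ⟨z1, hz1, hz1p⟩ : x0 ∈ Prod.fst '' C := by rw [hpr.1]; trivial
  obtain ⟨z2, hz2, hz2p⟩ : x0 ∈ Prod.snd '' C := by rw [hpr.2]; trivial
  have hc : ContinuousOn (fun z : X × X => g z.1 - g z.2) C := by
    apply Continuous.continuousOn
    fun_prop
  have hle : (fun z : X × X => g z.1 - g z.2) z1 ≤ 0 := by
    simp only [hz1p]
    linarith [hx0 z1.2]
  have hge : 0 ≤ (fun z : X × X => g z.1 - g z.2) z2 := by
    simp only [hz2p]
    linarith [hx0 z2.1]
  obtain ⟨z, hz, hz0⟩ := hC.isPreconnected.intermediate_value hz1 hz2 hc ⟨hle, hge⟩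
  have hzz : z.1 = z.2 := hinj (by simpa [sub_eq_zero] using hz0)
  refine le_trans (iInf₂_le z hz) ?_
  rw [hzz, edist_self]

/-- The graph of a continuous self-map moving every point by at least `a` bounds the surjective
semi-span from below. -/
lemma le_surjSemiSpan {X : Type} [MetricSpace X] [ConnectedSpace X] (h : X → X)
    (hh : Continuous h) (a : ℝ) (ha : ∀ x, a ≤ dist x (h x)) :
    ENNReal.ofReal a ≤ surjSemiSpan X := by
  have hG : Continuous (fun x : X => (x, h x)) := continuous_id.prodMk hh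
  refine le_iSup_of_le (range fun x : X => (x, h x)) ?_
  refine le_iSup_of_le (isConnected_range hG) ?_
  refine le_iSup_of_le (Or.inl ?_) ?_
  · ext x
    simp only [mem_image, mem_univ, iff_true]
    exact ⟨_, ⟨x, rfl⟩, rfl⟩
  · refine le_iInf₂ ?_
    rintro _ ⟨x, rfl⟩
    rw [edist_dist]
    exact ENNReal.ofReal_le_ofReal (ha x)

instance halfLine_connected : ConnectedSpace (Ici (0 : ℝ)) :=
  isConnected_iff_connectedSpace.mp isConnected_Ici

lemma halfLine_span : surjSpan (Ici (0 : ℝ)) = 0 :=
  surjSpan_eq_zero (fun x => (x : ℝ)) continuous_subtype_val Subtype.val_injective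
    ⟨0, self_mem_Ici⟩ (fun x => x.2)

lemma halfLine_semiSpan : surjSemiSpan (Ici (0 : ℝ)) = ⊤ := by
  refine ENNReal.eq_top_of_forall_nnreal_le fun r => ?_
  have := le_surjSemiSpan (X := Ici (0 : ℝ))
    (fun x => ⟨(x : ℝ) + r, add_nonneg x.2 r.2⟩)
    (by fun_prop) (r : ℝ) (by
      intro x
      rw [Subtype.dist_eq, Real.dist_eq]
      simp only [sub_add_cancel_left, abs_neg]
      exact le_abs_self _)
  simpa using this

/-- the spiral ray -/
noncomputable def F (t : ℝ) : ℝ × ℂ := (Real.exp (-t), Complex.exp (t * Complex.I))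

lemma F_cont : Continuous F := by
  unfold F; fun_prop

/-- the spiral ray as a subset of `ℝ × ℂ` -/
def S : Set (ℝ × ℂ) := F '' (Ici (0 : ℝ))

lemma S_path : IsPathConnected S :=
  ((convex_Ici (0 : ℝ)).isPathConnected ⟨0, self_mem_Ici⟩).image' F_cont.continuousOn

lemma S_bdd : Bornology.IsBounded S := by
  rw [Metric.isBounded_iff_subset_closedBall (0 : ℝ × ℂ)]
  refine ⟨1, ?_⟩
  rintro _ ⟨t, ht, rfl⟩
  rw [mem_closedBall_zero_iff, Prod.norm_def]
  simp only [F]
  refine max_le ?_ ?_
  · rw [Real.norm_eq_abs, Real.abs_exp]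
    have ht' : (0 : ℝ) ≤ t := ht
    exact Real.exp_le_one_iff.mpr (by linarith)
  · rw [Complex.norm_exp_ofReal_mul_I]

instance S_connected : ConnectedSpace S :=
  isConnected_iff_connectedSpace.mp S_path.isConnected

lemma S_span : surjSpan S = 0 := by
  refine surjSpan_eq_zero (fun x : S => - x.1.1) (by fun_prop) ?_
    ⟨F 0, ⟨0, self_mem_Ici, rfl⟩⟩ ?_
  · rintro ⟨_, s, hs, rfl⟩ ⟨_, t, ht, rfl⟩ h
    simp only [F, neg_inj, Real.exp_eq_exp] at h
    subst h
    rfl
  · rintro ⟨_, t, ht, rfl⟩
    simp only [F, neg_zero, Real.exp_zero, neg_le_neg_iff]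
    have ht' : (0 : ℝ) ≤ t := ht
    exact Real.exp_le_one_iff.mpr (by linarith)

lemma S_semiSpan : 2 ≤ surjSemiSpan S := by
  -- the graph of the map `F t ↦ F (t + π)`
  have hrep : ∀ x : S, x.1 = F (- Real.log x.1.1) ∧ 0 ≤ - Real.log x.1.1 ∧ 0 < x.1.1 := by
    rintro ⟨_, t, ht, rfl⟩
    have ht' : (0 : ℝ) ≤ t := ht
    refine ⟨?_, ?_, Real.exp_pos _⟩
    · simp [F, Real.log_exp]
    · simp [F, Real.log_exp]; exact ht'
  have h := le_surjSemiSpan (X := S)
    (fun x => ⟨F (- Real.log x.1.1 + Real.pi),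
      ⟨_, add_nonneg (hrep x).2.1 Real.pi_pos.le, rfl⟩⟩)
    (by
      refine Continuous.subtype_mk (F_cont.comp ?_) _
      refine Continuous.add (Continuous.neg ?_) continuous_const
      rw [continuous_iff_continuousAt]
      intro x
      refine ContinuousAt.log (by fun_prop) (hrep x).2.2.ne') 2 (by
      intro x
      change (2 : ℝ) ≤ dist x.1 (F (- Real.log x.1.1 + Real.pi))
      have hx1 : dist x.1 (F (- Real.log x.1.1 + Real.pi)) =
          dist (F (- Real.log x.1.1)) (F (- Real.log x.1.1 + Real.pi)) := by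
        rw [← (hrep x).1]
      rw [hx1]
      generalize - Real.log x.1.1 = t
      have h3 : dist (F t).2 (F (t + Real.pi)).2 ≤ dist (F t) (F (t + Real.pi)) := by
        rw [Prod.dist_eq]
        exact le_max_right _ _
      refine le_trans ?_ h3
      have h4 : (F (t + Real.pi)).2 = - (F t).2 := by
        simp only [F]
        push_cast
        rw [add_mul, Complex.exp_add, Complex.exp_pi_mul_I]
        ring
      rw [h4, dist_eq_norm, sub_neg_eq_add, ← two_mul, norm_mul]
      simp [F, Complex.norm_exp])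
  simpa using h

/-- The inequality `σ₀* ≤ 2 σ*` fails for connected metric spaces: the half-line has surjective span
`0` and surjective semi-span `∞`, and a bounded, path connected ray in `ℝ × ℂ` (spiralling towards
a circle) has surjective span `0` and surjective semi-span at least `2`. -/
theorem result :
    (surjSpan (Ici (0 : ℝ)) = 0 ∧ surjSemiSpan (Ici (0 : ℝ)) = ⊤) ∧
    (∃ S : Set (ℝ × ℂ), Bornology.IsBounded S ∧ IsPathConnected S ∧
      surjSpan S = 0 ∧ 2 ≤ surjSemiSpan S) ∧
    ¬ (∀ (X : Type) [MetricSpace X] [ConnectedSpace X], surjSemiSpan X ≤ 2 * surjSpan X) := by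
  refine ⟨⟨halfLine_span, halfLine_semiSpan⟩, ⟨S, S_bdd, S_path, S_span, S_semiSpan⟩, ?_⟩
  intro H
  have h := H (Ici (0 : ℝ))
  rw [halfLine_span, halfLine_semiSpan, mul_zero] at h
  simp at h

end Pool.Agent.Results.MP_c087c9_gt.SemiSpan
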